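import Pool.Agent.R410.LW.Fg

/-!
# The points of a finite covering: abstract form
-/

set_option autoImplicit false
set_option linter.all false
set_option maxHeartbeats 1000000

namespace Pool.Agent.T2H55.KV

open Pool.Agent.R410.LW (FG frac_of_closure)

/-- the field of fractions of a finitely generated ring is finitely generated -/
theorem fg_of_ft {A L : Type} [CommRing A] [Field L] [Algebra A L] [h : Algebra.FiniteType ℤ A]
    [IsFractionRing A L] : FG L := by
  classical
  obtain ⟨S, hS⟩ := h.1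
  refine ⟨S.image (algebraMap A L), ?_⟩
  set Cf := Subfield.closure ((S.image (algebraMap A L) : Finset L) : Set L) with hCf
  have hA : ∀ a : A, algebraMap A L a ∈ Cf := by
    intro a
    have ha : a ∈ Algebra.adjoin ℤ (S : Set A) := by rw [hS]; trivial
    induction ha using Algebra.adjoin_induction with
    | mem x hx =>
      apply Subfield.subset_closure
      rw [Finset.coe_image]
      exact ⟨x, hx, rfl⟩
    | algebraMap n =>
      rw [eq_intCast, map_intCast]
      exact intCast_mem Cf n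
    | add x y _ _ h1 h2 => rw [map_add]; exact add_mem h1 h2
    | mul x y _ _ h1 h2 => rw [map_mul]; exact mul_mem h1 h2
  rw [eq_top_iff]
  intro z _
  obtain ⟨x, y, -, rfl⟩ := IsFractionRing.div_surjective (A := A) z
  exact div_mem (hA x) (hA y)

section
variable {R K C E : Type} [CommRing R] [IsDomain R] [Field K] [Algebra R K]
  [IsFractionRing R K] [CommRing C] [Algebra R C] [CommRing E] [Algebra K E]

/-- `E` is the ring of fractions of `C` with the nonzero denominators in `R`. -/
structure IsCov (R : Type) {K C E : Type} [CommRing R] [Field K] [Algebra R K] [CommRing C]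
    [Algebra R C] [CommRing E] [Algebra K E] (j : C →+* E) : Prop where
  comm : ∀ r : R, j (algebraMap R C r) = algebraMap K E (algebraMap R K r)
  surj : ∀ x : E, ∃ (c : C) (r : R), r ≠ 0 ∧ algebraMap K E (algebraMap R K r) * x = j c
  ker : ∀ c : C, j c = 0 → ∃ r : R, r ≠ 0 ∧ algebraMap R C r * c = 0

variable {j : C →+* E} (hj : IsCov R (K := K) j)

include hj

/-- the kernel -/
theorem IsCov.ker' [IsNoetherianRing C] : ∃ s : R, s ≠ 0 ∧ ∀ c : C, j c = 0 → algebraMap R C s * c = 0 := by
  classical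
  obtain ⟨T, hT⟩ := (isNoetherianRing_iff_ideal_fg C).1 inferInstance (RingHom.ker j)
  have h1 : ∀ c : C, ∃ r : R, r ≠ 0 ∧ (j c = 0 → algebraMap R C r * c = 0) := by
    intro c
    by_cases h : j c = 0
    · obtain ⟨r, h2, h3⟩ := hj.ker c h
      exact ⟨r, h2, fun _ => h3⟩
    · exact ⟨1, one_ne_zero, fun h' => (h h').elim⟩
  choose r hr0 hr using h1
  refine ⟨∏ t ∈ T, r t, Finset.prod_ne_zero_iff.2 fun t _ => hr0 t, ?_⟩
  intro c hc
  have hc' : c ∈ Ideal.span (T : Set C) := by
    rw [hT]
    exact hc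
  refine Submodule.span_induction (p := fun c _ => algebraMap R C (∏ t ∈ T, r t) * c = 0) ?_ ?_ ?_ ?_ hc'
  · intro t ht
    have ht0 : j t = 0 := by
      have : t ∈ RingHom.ker j := by
        rw [← hT]
        exact Ideal.subset_span ht
      exact this
    rw [← Finset.mul_prod_erase T r (Finset.mem_coe.1 ht), map_mul, mul_right_comm, hr t ht0, zero_mul]
  · rw [mul_zero]
  · intro x y _ _ h1 h2
    rw [mul_add, h1, h2, add_zero]
  · intro a x _ h1
    rw [smul_eq_mul, mul_left_comm, h1, mul_zero]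

/-- two points -/
theorem IsCov.two {P P' : Ideal E} (hP : P ⊔ P' = ⊤) :
    ∃ s : R, s ≠ 0 ∧ algebraMap R C s ∈ P.comap j ⊔ P'.comap j := by
  have h1 : (1 : E) ∈ P ⊔ P' := by rw [hP]; trivial
  obtain ⟨x, hx, y, hy, hxy⟩ := Submodule.mem_sup.1 h1
  obtain ⟨a, r, hr, ha⟩ := hj.surj x
  obtain ⟨b, t, ht, hb⟩ := hj.surj y
  have e1 : algebraMap R C (t * r) - (algebraMap R C t * a + algebraMap R C r * b) ∈ P.comap j := by
    have e0 : j (algebraMap R C (t * r) - (algebraMap R C t * a + algebraMap R C r * b)) = 0 := by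
      simp only [map_sub, map_add, map_mul, hj.comm, ← ha, ← hb]
      have e2 : y = 1 - x := by rw [← hxy]; ring
      rw [e2]
      ring
    rw [Ideal.mem_comap, e0]
    exact zero_mem _
  refine ⟨t * r, mul_ne_zero ht hr, ?_⟩
  have e3 : algebraMap R C (t * r) = ((algebraMap R C (t * r) -
    (algebraMap R C t * a + algebraMap R C r * b)) + algebraMap R C t * a) + algebraMap R C r * b := by
    ring
  rw [e3]
  refine Submodule.add_mem_sup (add_mem e1 (Ideal.mul_mem_left _ _ ?_))
    (Ideal.mul_mem_left _ _ ?_)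
  · rw [Ideal.mem_comap, ← ha]
    exact Ideal.mul_mem_left _ _ hx
  · rw [Ideal.mem_comap, ← hb]
    exact Ideal.mul_mem_left _ _ hy

/-- the good denominators -/
theorem IsCov.good [IsNoetherianRing C] [Finite (MaximalSpectrum E)] : ∃ s : R, s ≠ 0 ∧
    (∀ c : C, j c = 0 → algebraMap R C s * c = 0) ∧
    ∀ P P' : MaximalSpectrum E, P ≠ P' →
      algebraMap R C s ∈ P.asIdeal.comap j ⊔ P'.asIdeal.comap j := by
  classical
  let _ : Fintype (MaximalSpectrum E) := Fintype.ofFinite _
  obtain ⟨s₀, hs₀, hs₀'⟩ := hj.ker'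
  have h1 : ∀ P P' : MaximalSpectrum E, ∃ s : R, s ≠ 0 ∧ (P ≠ P' →
      algebraMap R C s ∈ P.asIdeal.comap j ⊔ P'.asIdeal.comap j) := by
    intro P P'
    by_cases h : P = P'
    · exact ⟨1, one_ne_zero, fun h' => (h' h).elim⟩
    · have h2 : P.asIdeal ⊔ P'.asIdeal = ⊤ := by
        have h3 : P.asIdeal ≠ P'.asIdeal := fun h3 => h (MaximalSpectrum.ext h3)
        exact P.isMaximal.coprime_of_ne P'.isMaximal h3
      obtain ⟨s, h4, h5⟩ := hj.two h2
      exact ⟨s, h4, fun _ => h5⟩
  choose s hs0 hs using h1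
  refine ⟨s₀ * ∏ P, ∏ P', s P P', mul_ne_zero hs₀ (Finset.prod_ne_zero_iff.2 fun P _ =>
    Finset.prod_ne_zero_iff.2 fun P' _ => hs0 P P'), ?_, ?_⟩
  · intro c hc
    rw [map_mul, mul_right_comm, hs₀' c hc, zero_mul]
  · intro P P' h
    have e1 : s P P' ∣ ∏ P, ∏ P', s P P' :=
      (Finset.dvd_prod_of_mem (fun P' => s P P') (Finset.mem_univ P')).trans
        (Finset.dvd_prod_of_mem (fun P => ∏ P', s P P') (Finset.mem_univ P))
    obtain ⟨u, hu⟩ := e1.mul_left s₀
    rw [hu, map_mul]
    exact Ideal.mul_mem_right _ _ (hs P P' h)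

end

section
variable {R K C E : Type} [CommRing R] [IsDomain R] [Field K] [Algebra R K]
  [IsFractionRing R K] [CommRing C] [Algebra R C] [CommRing E] [Algebra K E]
  {j : C →+* E}

/-- the ring of a point -/
abbrev PtR (j : C →+* E) (P : MaximalSpectrum E) : Type := C ⧸ P.asIdeal.comap j

/-- **The points of the covering.** -/
theorem IsCov.points (hj : IsCov R (K := K) j) [Module.Finite K E] {s N : R}
    (h1 : ∀ c : C, j c = 0 → algebraMap R C s * c = 0)
    (h2 : ∀ P P' : MaximalSpectrum E, P ≠ P' →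
      algebraMap R C s ∈ P.asIdeal.comap j ⊔ P'.asIdeal.comap j) (hN : s ∣ N)
    [Fintype (MaximalSpectrum E)] (F : Type) [Field F] [Finite (C →+* F)] :
    Nat.card {θ : C →+* F // θ (algebraMap R C N) ≠ 0} =
      ∑ P : MaximalSpectrum E, Nat.card {θ : PtR j P →+* F //
        θ (Ideal.Quotient.mk _ (algebraMap R C N)) ≠ 0} := by
  classical
  have hart : IsArtinianRing E := IsArtinianRing.of_finite K E
  have hsN : ∀ θ : C →+* F, θ (algebraMap R C N) ≠ 0 → θ (algebraMap R C s) ≠ 0 := by
    intro θ h h0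
    obtain ⟨u, rfl⟩ := hN
    apply h
    rw [map_mul, map_mul, h0, zero_mul]
  have hfin : ∀ P : MaximalSpectrum E, Finite (PtR j P →+* F) := fun P =>
    Finite.of_injective (fun θ : PtR j P →+* F => θ.comp (Ideal.Quotient.mk _)) (by
      intro θ θ' h
      exact Ideal.Quotient.ringHom_ext h)
  rw [← Nat.card_sigma]
  refine (Nat.card_congr (Equiv.ofBijective (fun z : (Σ P : MaximalSpectrum E,
    {θ : PtR j P →+* F // θ (Ideal.Quotient.mk _ (algebraMap R C N)) ≠ 0}) =>
      (⟨z.2.1.comp (Ideal.Quotient.mk _), z.2.2⟩ : {θ : C →+* F // θ (algebraMap R C N) ≠ 0}))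
      ⟨?_, ?_⟩)).symm
  · rintro ⟨P, θ, hθ⟩ ⟨P', θ', hθ'⟩ h
    have h3 : θ.comp (Ideal.Quotient.mk _) = θ'.comp (Ideal.Quotient.mk _) :=
      congrArg Subtype.val h
    have h4 : P = P' := by
      by_contra hne
      have h5 := h2 P P' hne
      obtain ⟨a, ha, b, hb, hab⟩ := Submodule.mem_sup.1 h5
      have ha' : (θ.comp (Ideal.Quotient.mk _)) a = 0 := by
        rw [RingHom.comp_apply, Ideal.Quotient.eq_zero_iff_mem.2 ha, map_zero]
      have hb' : (θ.comp (Ideal.Quotient.mk _)) b = 0 := by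
        rw [h3, RingHom.comp_apply, Ideal.Quotient.eq_zero_iff_mem.2 hb, map_zero]
      have h6 : (θ.comp (Ideal.Quotient.mk _)) (algebraMap R C s) = 0 := by
        rw [← hab, map_add, ha', hb', add_zero]
      exact hsN _ hθ h6
    subst h4
    have h5 : θ = θ' := Ideal.Quotient.ringHom_ext h3
    subst h5
    rfl
  · rintro ⟨θ, hθ⟩
    have h3 : ∃ P : MaximalSpectrum E, ∀ c ∈ P.asIdeal.comap j, θ c = 0 := by
      by_contra hcon
      push Not at hcon
      choose c hc hc' using hcon
      have h4 : ∏ P, j (c P) ∈ nilradical E := by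
        rw [nilradical_eq_sInf, Ideal.mem_sInf]
        intro I hI
        have hI' : I.IsPrime := hI
        have hIm : I.IsMaximal := hI'.isMaximal'
        rw [← Finset.mul_prod_erase Finset.univ (fun P => j (c P))
          (Finset.mem_univ (⟨I, hIm⟩ : MaximalSpectrum E))]
        exact Ideal.mul_mem_right _ _ (hc ⟨I, hIm⟩)
      obtain ⟨n, hn⟩ := mem_nilradical.1 h4
      rw [← map_prod, ← map_pow] at hn
      have h5 := congrArg θ (h1 _ hn)
      rw [map_mul, map_zero, map_pow, map_prod] at h5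
      rcases mul_eq_zero.1 h5 with h6 | h6
      · exact hsN θ hθ h6
      · have h7 : ∏ P, θ (c P) = 0 := by
          by_contra h8
          exact pow_ne_zero n h8 h6
        obtain ⟨P, -, hP⟩ := Finset.prod_eq_zero_iff.1 h7
        exact hc' P hP
    obtain ⟨P, hP⟩ := h3
    refine ⟨⟨P, Ideal.Quotient.lift _ θ hP, ?_⟩, ?_⟩
    · rw [Ideal.Quotient.lift_mk]
      exact hθ
    · apply Subtype.ext
      exact RingHom.ext fun x => rfl

end

end Pool.Agent.T2H55.KV
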