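import Pool.Agent.T2H55.KV.Cov

/-!
# The points of the zero sets of polynomials in separate variables
-/

set_option autoImplicit false
set_option linter.all false
set_option maxHeartbeats 1000000

namespace Pool.Agent.T2H55.KV

open Polynomial
open Pool.Agent.R410.LW (FG frac_of_closure)

section
variable {ι : Type} {R : Type} [CommRing R]

/-- the ideal of the polynomials `G_i(x_i)` -/
noncomputable def idl (G : ι → R[X]) : Ideal (MvPolynomial ι R) :=
  Ideal.span (Set.range fun i => aeval (MvPolynomial.X i : MvPolynomial ι R) (G i))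

/-- the ring of the zero set -/
abbrev Cv (G : ι → R[X]) : Type := MvPolynomial ι R ⧸ idl G

theorem aeval_map {S : Type} [CommRing S] (f : R →+* S) (i : ι) (p : R[X]) :
    MvPolynomial.map f (aeval (MvPolynomial.X i : MvPolynomial ι R) p) =
      aeval (MvPolynomial.X i : MvPolynomial ι S) (p.map f) := by
  rw [aeval_def, aeval_def, eval₂_map, hom_eval₂, MvPolynomial.map_X]
  congr 1
  refine RingHom.ext fun r => ?_
  show MvPolynomial.map f (algebraMap R (MvPolynomial ι R) r) = algebraMap S (MvPolynomial ι S) (f r)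
  rw [MvPolynomial.algebraMap_eq, MvPolynomial.algebraMap_eq, MvPolynomial.map_C]

/-- the points -/
noncomputable def ptsEquiv (G : ι → R[X]) (F : Type) [Field F] :
    (Cv G →+* F) ≃ Σ φ : R →+* F, {x : ι → F // ∀ i, ((G i).map φ).eval (x i) = 0} where
  toFun θ := ⟨θ.comp (algebraMap R (Cv G)), fun i => θ (Ideal.Quotient.mk _ (MvPolynomial.X i)), by
    intro i
    have h1 : aeval (MvPolynomial.X i : MvPolynomial ι R) (G i) ∈ idl G :=
      Ideal.subset_span ⟨i, rfl⟩
    have h2 : θ (Ideal.Quotient.mk (idl G) (aeval (MvPolynomial.X i : MvPolynomial ι R) (G i))) = 0 := by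
      rw [Ideal.Quotient.eq_zero_iff_mem.2 h1, map_zero]
    rw [eval_map, ← h2, aeval_def, hom_eval₂, hom_eval₂]
    rfl⟩
  invFun z := Ideal.Quotient.lift _ (MvPolynomial.eval₂Hom z.1 z.2.1) (by
    intro a ha
    have h1 : idl G ≤ RingHom.ker (MvPolynomial.eval₂Hom z.1 z.2.1) := by
      unfold idl
      rw [Ideal.span_le]
      rintro _ ⟨i, rfl⟩
      show MvPolynomial.eval₂Hom z.1 z.2.1 (aeval (MvPolynomial.X i : MvPolynomial ι R) (G i)) = 0
      have h2 := z.2.2 i
      rw [eval_map] at h2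
      rw [aeval_def, hom_eval₂, MvPolynomial.eval₂Hom_X']
      refine Eq.trans ?_ h2
      congr 1
      refine RingHom.ext fun r => ?_
      show MvPolynomial.eval₂Hom z.1 z.2.1 (algebraMap R (MvPolynomial ι R) r) = _
      rw [MvPolynomial.algebraMap_eq, MvPolynomial.eval₂Hom_C]
    exact h1 ha)
  left_inv θ := by
    apply Ideal.Quotient.ringHom_ext
    apply MvPolynomial.ringHom_ext
    · intro r
      rw [RingHom.comp_apply, Ideal.Quotient.lift_mk, MvPolynomial.eval₂Hom_C]
      rfl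
    · intro i
      rw [RingHom.comp_apply, Ideal.Quotient.lift_mk, MvPolynomial.eval₂Hom_X']
      rfl
  right_inv z := by
    rcases z with ⟨φ, x, h⟩
    have gen : ∀ (φ' : R →+* F) (x' : ι → F) (h' : ∀ i, ((G i).map φ').eval (x' i) = 0), φ' = φ →
        x' = x → (⟨φ', x', h'⟩ : Σ φ : R →+* F, {x : ι → F // ∀ i, ((G i).map φ).eval (x i) = 0}) =
          ⟨φ, x, h⟩ := by
      rintro φ' x' h' rfl rfl
      rfl
    refine gen _ _ _ ?_ ?_
    · refine RingHom.ext fun r => ?_
      show MvPolynomial.eval₂Hom φ x (algebraMap R (MvPolynomial ι R) r) = _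
      rw [MvPolynomial.algebraMap_eq, MvPolynomial.eval₂Hom_C]
    · funext i
      show MvPolynomial.eval₂Hom φ x (MvPolynomial.X i) = _
      rw [MvPolynomial.eval₂Hom_X']

theorem ptsEquiv_alg (G : ι → R[X]) (F : Type) [Field F] (θ : Cv G →+* F) (r : R) :
    (ptsEquiv G F θ).1 r = θ (algebraMap R (Cv G) r) := rfl

/-- the number of the points -/
theorem card_pts [Fintype ι] (G : ι → R[X]) (N : R) (F : Type) [Field F] [Finite F]
    [Fintype (R →+* F)] [DecidablePred fun φ : R →+* F => φ N ≠ 0] :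
    Nat.card {θ : Cv G →+* F // θ (algebraMap R (Cv G) N) ≠ 0} =
      ∑ φ : R →+* F, if φ N ≠ 0 then ∏ i, Nat.card {x : F // ((G i).map φ).eval x = 0} else 0 := by
  classical
  have e1 : {θ : Cv G →+* F // θ (algebraMap R (Cv G) N) ≠ 0} ≃
      Σ φ : {φ : R →+* F // φ N ≠ 0}, ∀ i, {x : F // ((G i).map φ.1).eval x = 0} :=
    { toFun := fun θ => ⟨⟨(ptsEquiv G F θ.1).1, θ.2⟩, fun i =>
        ⟨(ptsEquiv G F θ.1).2.1 i, (ptsEquiv G F θ.1).2.2 i⟩⟩
      invFun := fun z => ⟨(ptsEquiv G F).symm ⟨z.1.1, fun i => (z.2 i).1, fun i => (z.2 i).2⟩, by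
        rw [← ptsEquiv_alg, Equiv.apply_symm_apply]
        exact z.1.2⟩
      left_inv := fun θ => Subtype.ext ((ptsEquiv G F).symm_apply_apply θ.1)
      right_inv := fun z => by
        rcases z with ⟨⟨φ, hφ⟩, x⟩
        have h1 := (ptsEquiv G F).apply_symm_apply ⟨φ, fun i => (x i).1, fun i => (x i).2⟩
        have gen : ∀ w : (Σ φ : R →+* F, {x : ι → F // ∀ i, ((G i).map φ).eval (x i) = 0}),
            ∀ hw : w.1 N ≠ 0, w = ⟨φ, fun i => (x i).1, fun i => (x i).2⟩ →
            (⟨⟨w.1, hw⟩, fun i => ⟨w.2.1 i, w.2.2 i⟩⟩ :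
              Σ φ : {φ : R →+* F // φ N ≠ 0}, ∀ i, {x : F // ((G i).map φ.1).eval x = 0}) =
              ⟨⟨φ, hφ⟩, x⟩ := by
          rintro w hw rfl
          rfl
        exact gen _ _ h1 }
  rw [Nat.card_congr e1, Nat.card_sigma, ← Finset.sum_filter]
  rw [Finset.sum_subtype (Finset.univ.filter fun φ : R →+* F => φ N ≠ 0)
    (p := fun φ : R →+* F => φ N ≠ 0) (fun φ => by simp)]
  refine Finset.sum_congr rfl fun φ _ => ?_
  rw [Nat.card_pi]

end

section
variable {ι : Type} {R K : Type} [CommRing R] [IsDomain R] [Field K] [Algebra R K]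
  [IsFractionRing R K]

/-- the map of the rings -/
noncomputable def jj (G : ι → R[X]) (P : ι → K[X]) (h : ∀ i, (G i).map (algebraMap R K) = P i) :
    Cv G →+* Cv P :=
  Ideal.quotientMap (idl P) (MvPolynomial.map (algebraMap R K)) (by
    unfold idl
    rw [Ideal.span_le]
    rintro _ ⟨i, rfl⟩
    have h1 : aeval (MvPolynomial.X i : MvPolynomial ι K) (P i) ∈
        Ideal.span (Set.range fun i => aeval (MvPolynomial.X i : MvPolynomial ι K) (P i)) :=
      Ideal.subset_span ⟨i, rfl⟩
    rw [← h i, ← aeval_map] at h1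
    exact h1)

theorem clear_den (p : MvPolynomial ι K) : ∃ (p' : MvPolynomial ι R) (r : R), r ≠ 0 ∧
    MvPolynomial.C (algebraMap R K r) * p = MvPolynomial.map (algebraMap R K) p' := by
  induction p using MvPolynomial.induction_on with
  | C a =>
    obtain ⟨x, y, hy, rfl⟩ := IsFractionRing.div_surjective (A := R) a
    have hy0 : y ≠ 0 := nonZeroDivisors.ne_zero hy
    have hy1 : algebraMap R K y ≠ 0 := by
      intro h
      exact hy0 (IsFractionRing.injective R K (by rw [h, map_zero]))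
    refine ⟨MvPolynomial.C x, y, hy0, ?_⟩
    rw [MvPolynomial.map_C, ← map_mul, mul_div_cancel₀ _ hy1]
  | add p q hp hq =>
    obtain ⟨p', r, hr, hp'⟩ := hp
    obtain ⟨q', t, ht, hq'⟩ := hq
    refine ⟨MvPolynomial.C t * p' + MvPolynomial.C r * q', r * t, mul_ne_zero hr ht, ?_⟩
    simp only [map_add, map_mul, MvPolynomial.map_C, ← hp', ← hq']
    ring
  | mul_X p i hp =>
    obtain ⟨p', r, hr, hp'⟩ := hp
    refine ⟨p' * MvPolynomial.X i, r, hr, ?_⟩
    rw [map_mul, MvPolynomial.map_X, ← hp', mul_assoc]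

theorem ideal_den {G : ι → R[X]} {P : ι → K[X]} (h : ∀ i, (G i).map (algebraMap R K) = P i)
    {z : MvPolynomial ι K} (hz : z ∈ idl P) : ∃ (z' : MvPolynomial ι R) (r : R), r ≠ 0 ∧
      z' ∈ idl G ∧ MvPolynomial.C (algebraMap R K r) * z = MvPolynomial.map (algebraMap R K) z' := by
  refine Submodule.span_induction (p := fun z _ => ∃ (z' : MvPolynomial ι R) (r : R), r ≠ 0 ∧
      z' ∈ idl G ∧ MvPolynomial.C (algebraMap R K r) * z = MvPolynomial.map (algebraMap R K) z')
      ?_ ?_ ?_ ?_ hz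
  · rintro _ ⟨i, rfl⟩
    refine ⟨aeval (MvPolynomial.X i : MvPolynomial ι R) (G i), 1, one_ne_zero,
      Ideal.subset_span ⟨i, rfl⟩, ?_⟩
    rw [map_one, map_one, one_mul, aeval_map, h]
  · exact ⟨0, 1, one_ne_zero, zero_mem _, by rw [mul_zero, map_zero]⟩
  · rintro x y _ _ ⟨x', r, hr, hx, hx'⟩ ⟨y', t, ht, hy, hy'⟩
    refine ⟨MvPolynomial.C t * x' + MvPolynomial.C r * y', r * t, mul_ne_zero hr ht,
      add_mem (Ideal.mul_mem_left _ _ hx) (Ideal.mul_mem_left _ _ hy), ?_⟩
    simp only [map_add, map_mul, MvPolynomial.map_C, ← hx', ← hy']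
    ring
  · rintro a x _ ⟨x', r, hr, hx, hx'⟩
    obtain ⟨a', t, ht, ha'⟩ := clear_den (R := R) a
    refine ⟨a' * x', t * r, mul_ne_zero ht hr, Ideal.mul_mem_left _ _ hx, ?_⟩
    simp only [smul_eq_mul, map_mul, ← hx', ← ha']
    ring

theorem isCov_jj (G : ι → R[X]) (P : ι → K[X]) (h : ∀ i, (G i).map (algebraMap R K) = P i) :
    IsCov R (K := K) (jj G P h) where
  comm r := by
    show jj G P h (Ideal.Quotient.mk _ (algebraMap R (MvPolynomial ι R) r)) =
      Ideal.Quotient.mk _ (algebraMap K (MvPolynomial ι K) (algebraMap R K r))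
    unfold jj
    rw [Ideal.quotientMap_mk, MvPolynomial.algebraMap_eq, MvPolynomial.algebraMap_eq,
      MvPolynomial.map_C]
  surj x := by
    obtain ⟨p, rfl⟩ := Ideal.Quotient.mk_surjective x
    obtain ⟨p', r, hr, hp⟩ := clear_den (R := R) p
    refine ⟨Ideal.Quotient.mk _ p', r, hr, ?_⟩
    unfold jj
    rw [Ideal.quotientMap_mk, ← hp, map_mul]
    rfl
  ker c hc := by
    obtain ⟨p, rfl⟩ := Ideal.Quotient.mk_surjective c
    unfold jj at hc
    rw [Ideal.quotientMap_mk, Ideal.Quotient.eq_zero_iff_mem] at hc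
    obtain ⟨z', r, hr, hz, hz'⟩ := ideal_den h hc
    refine ⟨r, hr, ?_⟩
    have h1 : MvPolynomial.C r * p = z' := by
      apply MvPolynomial.map_injective _ (IsFractionRing.injective R K)
      rw [map_mul, MvPolynomial.map_C, hz']
    show Ideal.Quotient.mk _ (algebraMap R (MvPolynomial ι R) r) * Ideal.Quotient.mk _ p = 0
    rw [← map_mul, MvPolynomial.algebraMap_eq, h1, Ideal.Quotient.eq_zero_iff_mem]
    exact hz

theorem finite_cv [Finite ι] {P : ι → K[X]} (hP : ∀ i, (P i).Monic) : Module.Finite K (Cv P) := by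
  classical
  have hft : Algebra.FiniteType K (Cv P) := inferInstance
  have hx : ∀ i, IsIntegral K (Ideal.Quotient.mk (idl P) (MvPolynomial.X i)) := by
    intro i
    refine ⟨P i, hP i, ?_⟩
    have h1 : aeval (MvPolynomial.X i : MvPolynomial ι K) (P i) ∈ idl P :=
      Ideal.subset_span ⟨i, rfl⟩
    rw [← Ideal.Quotient.eq_zero_iff_mem.2 h1, aeval_def, hom_eval₂]
    rfl
  have hint : Algebra.IsIntegral K (Cv P) := by
    refine ⟨fun z => ?_⟩
    obtain ⟨p, rfl⟩ := Ideal.Quotient.mk_surjective z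
    induction p using MvPolynomial.induction_on with
    | C a => exact isIntegral_algebraMap (R := K) (A := Cv P) (x := a)
    | add p q hp hq =>
      rw [map_add]
      exact hp.add hq
    | mul_X p i hp =>
      rw [map_mul]
      exact hp.mul (hx i)
  exact Algebra.IsIntegral.finite

/-- the maximal ideals -/
noncomputable def maxEquiv (P : ι → K[X]) : MaximalSpectrum (Cv P) ≃
    {I : Ideal (MvPolynomial ι K) // I.IsMaximal ∧
      ∀ i, aeval (MvPolynomial.X i : MvPolynomial ι K) (P i) ∈ I} where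
  toFun Q := ⟨Q.asIdeal.comap (Ideal.Quotient.mk (idl P)), by
    refine ⟨?_, fun i => ?_⟩
    · have := Q.isMaximal
      exact Ideal.comap_isMaximal_of_surjective _ Ideal.Quotient.mk_surjective
    · have h1 : aeval (MvPolynomial.X i : MvPolynomial ι K) (P i) ∈ idl P :=
        Ideal.subset_span ⟨i, rfl⟩
      rw [Ideal.mem_comap, Ideal.Quotient.eq_zero_iff_mem.2 h1]
      exact zero_mem _⟩
  invFun I := ⟨I.1.map (Ideal.Quotient.mk (idl P)), by
    have := I.2.1
    have hle : idl P ≤ I.1 := by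
      unfold idl
      rw [Ideal.span_le]
      rintro _ ⟨i, rfl⟩
      exact I.2.2 i
    rcases Ideal.map_eq_top_or_isMaximal_of_surjective (Ideal.Quotient.mk (idl P))
      Ideal.Quotient.mk_surjective I.2.1 with h | h
    · exfalso
      have h1 := congrArg (Ideal.comap (Ideal.Quotient.mk (idl P))) h
      rw [Ideal.comap_map_of_surjective _ Ideal.Quotient.mk_surjective, Ideal.comap_top,
        ← RingHom.ker_eq_comap_bot, Ideal.mk_ker, sup_eq_left.2 hle] at h1
      exact I.2.1.ne_top h1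
    · exact h⟩
  left_inv Q := by
    apply MaximalSpectrum.ext
    exact Ideal.map_comap_of_surjective _ Ideal.Quotient.mk_surjective _
  right_inv I := by
    apply Subtype.ext
    have hle : idl P ≤ I.1 := by
      unfold idl
      rw [Ideal.span_le]
      rintro _ ⟨i, rfl⟩
      exact I.2.2 i
    show Ideal.comap _ (Ideal.map _ I.1) = I.1
    rw [Ideal.comap_map_of_surjective _ Ideal.Quotient.mk_surjective,
        ← RingHom.ker_eq_comap_bot, Ideal.mk_ker, sup_eq_left.2 hle]

end

end Pool.Agent.T2H55.KV
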