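import Pool.Agent.T2H55.KV.Pts
import Pool.Agent.R410.NG.Sf

/-!
# The residue of the averages of the numbers of the points of a finite covering
-/

set_option autoImplicit false
set_option linter.all false
set_option maxHeartbeats 1000000

open Polynomial NumberField IsDedekindDomain Filter Topology

namespace Pool.Agent.T2H55.KV

open Pool.Agent.R410.LW (FG frac_of_closure ft_int)
open Pool.Agent.R410.BS (cF hom_le landau_all)
open Pool.Agent.Y707.PR (HasResidue series)
open Pool.Agent.R410.NG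

/-- the number of the tuples of the roots and the points at infinity -/
noncomputable def wk (m : ℕ) : Wt (Fin m) := fun F _ p =>
  ∏ i, (1 + (Nat.card {x : F // (p i).eval x = 0} : ℝ))

theorem wk_eq (m : ℕ) (F : Type) [Field F] (p : Fin m → F[X]) :
    wk m F p = ∑ T : Finset (Fin m), wr {i // i ∈ T} F (fun i => p i.1) := by
  unfold wk wr
  rw [Finset.prod_one_add, Finset.powerset_univ]
  refine Finset.sum_congr rfl fun T _ => ?_
  exact (Finset.prod_coe_sort T fun i => (Nat.card {x : F // (p i).eval x = 0} : ℝ)).symm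

theorem wk_nonneg {m : ℕ} (F : Type) [Field F] (p : Fin m → F[X]) : 0 ≤ wk m F p :=
  Finset.prod_nonneg fun i _ => by positivity

theorem wk_bound {m : ℕ} {n : Fin m → ℕ} (F : Type) [Field F] [Finite F] (p : Fin m → F[X])
    (hp : ∀ i, (p i).Monic ∧ (p i).natDegree = n i) : |wk m F p| ≤ ∏ i, (1 + (n i : ℝ)) := by
  rw [abs_of_nonneg (wk_nonneg F p)]
  unfold wk
  refine Finset.prod_le_prod (fun i _ => by positivity) fun i _ => ?_
  have h := card_roots_le (hp i).1
  rw [(hp i).2] at h
  have h' : (Nat.card {x : F // (p i).eval x = 0} : ℝ) ≤ n i := by exact_mod_cast h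
  linarith

theorem isWt_wk {m : ℕ} (n : Fin m → ℕ) : IsWt (wk m) n (∏ i, (1 + (n i : ℝ))) where
  c0 := Finset.prod_nonneg fun i _ => by positivity
  iso F F' _ _ e p := by
    rw [wk_eq, wk_eq]
    refine Finset.sum_congr rfl fun T _ => ?_
    exact (isWt_wr (ι := {i // i ∈ T}) fun i => n i.1).iso F F' e fun i => p i.1
  bound F _ _ p hp := by
    have hq : (1 : ℝ) ≤ (Nat.card F : ℝ) := by exact_mod_cast Nat.card_pos
    exact (wk_bound F p hp).trans (le_mul_of_one_le_right
      (Finset.prod_nonneg fun i _ => by positivity) (Real.one_le_sqrt.2 hq))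

/-- the number of the orbits -/
noncomputable def nodes {m : ℕ} {K : Type} [Field K] (P : Fin m → K[X]) : ℕ :=
  ∑ T : Finset (Fin m), closedPts fun i : {i // i ∈ T} => P i.1

section
variable {R K : Type} [CommRing R] [IsDomain R] [Field K] [CharZero K] [Algebra R K]
  [IsFractionRing R K] [Algebra.FiniteType ℤ R]

theorem sT_wk {m : ℕ} (G : Fin m → R[X]) (N : R) (F : Type) [Field F] [Finite F] :
    sT (wk m) G N F = ∑ T : Finset (Fin m),
      sT (wr {i // i ∈ T}) (fun i : {i // i ∈ T} => G i.1) N F := by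
  classical
  let _ : Fintype (R →+* F) := Fintype.ofFinite _
  rw [sT_eq]
  have e1 : ∀ T : Finset (Fin m), sT (wr {i // i ∈ T}) (fun i : {i // i ∈ T} => G i.1) N F =
      ∑ φ : R →+* F, if φ N ≠ 0 then
        wr {i // i ∈ T} F (fun i : {i // i ∈ T} => (G i.1).map φ) else 0 := fun T =>
    sT_eq _ _ _ _
  rw [Finset.sum_congr rfl fun T _ => e1 T, Finset.sum_comm]
  refine Finset.sum_congr rfl fun φ _ => ?_
  split_ifs
  · rw [wk_eq]
  · rw [Finset.sum_const_zero]

theorem asy_wk (hK : FG K) {e m : ℕ} (he : Algebra.trdeg ℚ K = e) {G : Fin m → R[X]}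
    (hG : ∀ i, (G i).Monic) {P : Fin m → K[X]} (h : ∀ i, (G i).map (algebraMap R K) = P i) {N : R}
    (hN : N ≠ 0) : Asy (fun F _ _ => sT (wk m) G N F) e (nodes P) := by
  have h0 : ∀ T : Finset (Fin m), Asy (fun F _ _ =>
      sT (wr {i // i ∈ T}) (fun i : {i // i ∈ T} => G i.1) N F) e
      (closedPts fun i : {i // i ∈ T} => P i.1) := fun T =>
    asy_wr (ι := {i // i ∈ T}) (G := fun i : {i // i ∈ T} => G i.1)
      (P := fun i : {i // i ∈ T} => P i.1) hK he (fun i => hG i.1) (fun i => h i.1) hN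
  have h1 := Asy.sum Finset.univ (fun T : Finset (Fin m) => (fun F _ _ =>
      sT (wr {i // i ∈ T}) (fun i : {i // i ∈ T} => G i.1) N F : Ff))
      (fun T => ((closedPts fun i : {i // i ∈ T} => P i.1 : ℕ) : ℝ)) (fun T _ => h0 T)
  have h2 : (∑ T : Finset (Fin m), ((closedPts fun i : {i // i ∈ T} => P i.1 : ℕ) : ℝ)) =
      (nodes P : ℝ) := by
    unfold nodes
    push_cast
    rfl
  rw [h2] at h1
  exact h1.congr 1 one_ne_zero fun F _ _ _ => sT_wk G N F

variable {k : Type} [Field k] [NumberField k] [Algebra (𝓞 k) R]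

/-- **The residue of the series of the averages of the numbers of the points of a finite
covering.** -/
theorem residue_nodes (hK : FG K) {e m : ℕ} (he : Algebra.trdeg ℚ K = e) {G : Fin m → R[X]}
    (hG : ∀ i, (G i).Monic) {P : Fin m → K[X]} (h : ∀ i, (G i).map (algebraMap R K) = P i) {N : R}
    (hN : N ≠ 0) (S : Finset (HeightOneSpectrum (𝓞 k))) :
    HasResidue S (fun v => avg (wk m) G N e v) 1 ((nodes P : ℤ) : ℝ) := by
  classical
  obtain ⟨κ, iκ, L', iL, nL, a, ha, C2, N2, hC2, hN2, g2⟩ := asy_wk hK he hG h hN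
  obtain ⟨C3, hC3, g3⟩ := hom_le (R := R) (K := K) (IsFractionRing.injective R K) (e := e)
    (by rw [he])
  set c : ℝ := ∏ i, (1 + ((G i).natDegree : ℝ)) with hc
  have hc0 : 0 ≤ c := Finset.prod_nonneg fun i _ => by positivity
  refine all_models (K := K) (isWt_wk fun i => (G i).natDegree) (e := e) (by rw [he]) rfl (fun _ => rfl)
    (fun j => ⟨hG j, rfl⟩) hN hN L' a (by rw [ha]; push_cast; rfl) ?_ ⟨C2, N2, hC2, hN2, g2⟩ S
  refine ⟨C3 * c, 1, mul_nonneg hC3 hc0, one_ne_zero, fun F _ _ _ ψ => ?_⟩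
  let _ : Fintype (R →+* F) := Fintype.ofFinite _
  rw [sR_eq]
  calc |∑ φ : R →+* F, if φ.comp (algebraMap (𝓞 k) R) = ψ ∧ φ N ≠ 0 then
        wk m F (fun j => (G j).map φ) else 0| ≤
      ∑ φ : R →+* F, |if φ.comp (algebraMap (𝓞 k) R) = ψ ∧ φ N ≠ 0 then
        wk m F (fun j => (G j).map φ) else 0| := Finset.abs_sum_le_sum_abs _ _
    _ ≤ ∑ φ : R →+* F, c := by
        refine Finset.sum_le_sum fun φ _ => ?_
        split_ifs
        · exact wk_bound F _ fun j => ⟨(hG j).map φ, by rw [(hG j).natDegree_map]⟩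
        · rw [abs_zero]
          exact hc0
    _ = (Nat.card (R →+* F) : ℝ) * c := by
        rw [Finset.sum_const, Finset.card_univ, nsmul_eq_mul, Nat.card_eq_fintype_card]
    _ ≤ (C3 * (Nat.card F : ℝ) ^ e) * c :=
        mul_le_mul_of_nonneg_right (g3 F) hc0
    _ = _ := by ring

end

end Pool.Agent.T2H55.KV
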