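import Pool.Agent.T2H55.KV.Mv
import Pool.Agent.R410.NG.Ci

/-!
# The number of the points of a finite covering, on the average
-/

set_option autoImplicit false
set_option linter.all false
set_option maxHeartbeats 1000000

namespace Pool.Agent.T2H55.KV

open Polynomial
open Pool.Agent.R410.LW (FG frac_of_closure ft_int)
open Pool.Agent.R410.NG

section
variable {R K C E : Type} [CommRing R] [IsDomain R] [Field K] [CharZero K] [Algebra R K]
  [IsFractionRing R K] [CommRing C] [Algebra R C] [CommRing E] [Algebra K E]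
  {j : C →+* E}

/-- one point of the covering -/
theorem asy_point (hj : IsCov R (K := K) j) [Algebra.FiniteType ℤ C] [Module.Finite K E] {e : ℕ}
    (he : Algebra.trdeg ℚ K = e) {κ : Type} [Field κ] (π : E →+* κ) (hπ : Function.Surjective π)
    (I : Ideal C) (hI : I = RingHom.ker (π.comp j)) {s : R} (hs : s ≠ 0) :
    Asy (sH (Ideal.Quotient.mk I (algebraMap R C s))) e 1 := by
  classical
  subst hI
  set θ₀ : C →+* κ := π.comp j with hθ₀
  let _ : Algebra K κ := (π.comp (algebraMap K E)).toAlgebra
  have hcκ : CharZero κ := charZero_of_injective_algebraMap (algebraMap K κ).injective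
  have hK0 : ∀ r : R, r ≠ 0 → θ₀ (algebraMap R C r) ≠ 0 := by
    intro r hr h0
    have h1 : θ₀ (algebraMap R C r) = algebraMap K κ (algebraMap R K r) := by
      show π (j (algebraMap R C r)) = _
      rw [hj.comm]
      rfl
    rw [h1] at h0
    have h2 := (map_eq_zero (algebraMap K κ)).1 h0
    exact hr (IsFractionRing.injective R K (by rw [h2, map_zero]))
  let _ : Algebra (C ⧸ RingHom.ker θ₀) κ := (RingHom.kerLift θ₀).toAlgebra
  have hinj : Function.Injective (algebraMap (C ⧸ RingHom.ker θ₀) κ) := RingHom.kerLift_injective θ₀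
  have hmk : ∀ c : C, algebraMap (C ⧸ RingHom.ker θ₀) κ (Ideal.Quotient.mk _ c) = θ₀ c := fun c => rfl
  have hdom : IsDomain (C ⧸ RingHom.ker θ₀) := hinj.isDomain _
  have hfr : IsFractionRing (C ⧸ RingHom.ker θ₀) κ := by
    have hf : FaithfulSMul (C ⧸ RingHom.ker θ₀) κ := (faithfulSMul_iff_algebraMap_injective _ _).2 hinj
    refine IsFractionRing.of_field _ κ fun z => ?_
    obtain ⟨x, rfl⟩ := hπ z
    obtain ⟨c, r, hr, hc⟩ := hj.surj x
    refine ⟨Ideal.Quotient.mk _ c, Ideal.Quotient.mk _ (algebraMap R C r), ?_⟩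
    rw [hmk, hmk, eq_div_iff (hK0 r hr)]
    show π x * π (j (algebraMap R C r)) = π (j c)
    rw [← map_mul, hj.comm, mul_comm, hc]
  have hft : Algebra.FiniteType ℤ (C ⧸ RingHom.ker θ₀) := by
    have h1 : Algebra.FiniteType ℤ (C ⧸ RingHom.ker θ₀) :=
      Algebra.FiniteType.of_surjective (Ideal.Quotient.mkₐ ℤ (RingHom.ker θ₀))
        (Ideal.Quotient.mkₐ_surjective ℤ _)
    exact h1
  have hft' := ft_int _ hft
  have hFG : FG κ := fg_of_ft (A := C ⧸ RingHom.ker θ₀)
  have hfinκ : Module.Finite K κ := by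
    let f : E →ₗ[K] κ :=
      { toFun := π
        map_add' := map_add π
        map_smul' := fun a x => by
          rw [Algebra.smul_def, map_mul, RingHom.id_apply, Algebra.smul_def]
          rfl }
    exact Module.Finite.of_surjective f hπ
  have htr : Algebra.trdeg ℚ κ = e := by
    have ht : IsScalarTower ℚ K κ := IsScalarTower.of_algebraMap_eq' (Subsingleton.elim _ _)
    have h2 := trdeg_add_eq ℚ K (A := κ)
    rw [trdeg_eq_zero (R := K) (A := κ), add_zero, he] at h2
    exact h2.symm
  refine asy_sH hFG htr ?_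
  intro h0
  apply hK0 s hs
  rw [← hmk, h0, map_zero]

end

/-- the number of the closed points of the zero set of the polynomials `P_i(x_i)` -/
noncomputable def closedPts {ι K : Type} [Field K] (P : ι → K[X]) : ℕ :=
  Nat.card {I : Ideal (MvPolynomial ι K) // I.IsMaximal ∧
      ∀ i, aeval (MvPolynomial.X i : MvPolynomial ι K) (P i) ∈ I}

section
variable {ι : Type} [Fintype ι]

/-- the product of the numbers of the roots -/
noncomputable def wr (ι : Type) [Fintype ι] : Wt ι := fun F _ p =>
  ∏ i, (Nat.card {x : F // (p i).eval x = 0} : ℝ)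

theorem card_roots_le {F : Type} [Field F] [Finite F] {p : F[X]} (hp : p.Monic) :
    Nat.card {x : F // p.eval x = 0} ≤ p.natDegree := by
  classical
  have := Fintype.ofFinite F
  rw [Nat.card_eq_fintype_card, Fintype.card_subtype]
  refine le_trans (Finset.card_le_card (t := p.roots.toFinset) ?_)
    ((Multiset.toFinset_card_le _).trans (card_roots' p))
  intro x hx
  rw [Multiset.mem_toFinset, mem_roots hp.ne_zero]
  exact (Finset.mem_filter.1 hx).2

theorem wr_bound {n : ι → ℕ} (F : Type) [Field F] [Finite F] (p : ι → F[X])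
    (hp : ∀ i, (p i).Monic ∧ (p i).natDegree = n i) : |wr ι F p| ≤ ∏ i, (n i : ℝ) := by
  unfold wr
  rw [abs_of_nonneg (Finset.prod_nonneg fun i _ => Nat.cast_nonneg _)]
  refine Finset.prod_le_prod (fun i _ => Nat.cast_nonneg _) fun i _ => ?_
  have h := card_roots_le (hp i).1
  rw [(hp i).2] at h
  exact_mod_cast h

theorem isWt_wr (n : ι → ℕ) : IsWt (wr ι) n (∏ i, (n i : ℝ)) where
  c0 := Finset.prod_nonneg fun i _ => Nat.cast_nonneg _
  iso F F' _ _ e p := by
    unfold wr
    refine Finset.prod_congr rfl fun i _ => ?_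
    congr 1
    refine (Nat.card_congr (e.toEquiv.subtypeEquiv fun x => ?_)).symm
    show (p i).eval x = 0 ↔ ((p i).map (e : F →+* F')).eval (e x) = 0
    have h1 : ((p i).map (e : F →+* F')).eval (e x) = e ((p i).eval x) := by
      rw [eval_map]
      exact (hom_eval₂ (p i) (RingHom.id F) (e : F →+* F') x).symm
    rw [h1, map_eq_zero]
  bound F _ _ p hp := by
    have hq : (1 : ℝ) ≤ (Nat.card F : ℝ) := by exact_mod_cast Nat.card_pos
    exact (wr_bound F p hp).trans (le_mul_of_one_le_right
      (Finset.prod_nonneg fun i _ => Nat.cast_nonneg _) (Real.one_le_sqrt.2 hq))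

variable {R K : Type} [CommRing R] [IsDomain R] [Field K] [CharZero K] [Algebra R K]
  [IsFractionRing R K] [Algebra.FiniteType ℤ R]

/-- **The average of the products of the numbers of the roots.** -/
theorem asy_wr (hK : FG K) {e : ℕ} (he : Algebra.trdeg ℚ K = e) {G : ι → R[X]}
    (hG : ∀ i, (G i).Monic) {P : ι → K[X]} (h : ∀ i, (G i).map (algebraMap R K) = P i) {N : R}
    (hN : N ≠ 0) : Asy (fun F _ _ => sT (wr ι) G N F) e (closedPts P) := by
  classical
  have hP : ∀ i, (P i).Monic := fun i => by
    rw [← h i]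
    exact (hG i).map _
  have hj : IsCov R (K := K) (jj G P h) := isCov_jj G P h
  have hnR : IsNoetherianRing R := Algebra.FiniteType.isNoetherianRing ℤ R
  have hftC : Algebra.FiniteType R (Cv G) := inferInstance
  have hftZ := ft_int _ (Algebra.FiniteType.trans (R := ℤ) (S := R) (A := Cv G) inferInstance hftC)
  have hnC : IsNoetherianRing (Cv G) := Algebra.FiniteType.isNoetherianRing R (Cv G)
  have hfE : Module.Finite K (Cv P) := finite_cv hP
  have hart : IsArtinianRing (Cv P) := IsArtinianRing.of_finite K (Cv P)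
  have hfm : Finite (MaximalSpectrum (Cv P)) := inferInstance
  let _ : Fintype (MaximalSpectrum (Cv P)) := Fintype.ofFinite _
  obtain ⟨s, hs, g1, g2⟩ := hj.good
  have hA : Asy (fun F _ _ => sT (wr ι) G s F) e (closedPts P) := by
    have h1 : Asy (fun F _ _ => ∑ Q : MaximalSpectrum (Cv P),
        sH (Ideal.Quotient.mk (Q.asIdeal.comap (jj G P h)) (algebraMap R (Cv G) s)) F) e
          (∑ Q : MaximalSpectrum (Cv P), 1) := by
      refine Asy.sum Finset.univ (fun Q : MaximalSpectrum (Cv P) =>
        sH (Ideal.Quotient.mk (Q.asIdeal.comap (jj G P h)) (algebraMap R (Cv G) s))) _ fun Q _ => ?_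
      obtain ⟨κ, iκ, π, hπ, hker⟩ : ∃ (κ : Type) (_ : Field κ) (π : Cv P →+* κ),
          Function.Surjective π ∧ RingHom.ker π = Q.asIdeal := by
        have := Q.isMaximal
        exact ⟨Cv P ⧸ Q.asIdeal, Ideal.Quotient.field _, Ideal.Quotient.mk _,
          Ideal.Quotient.mk_surjective, Ideal.mk_ker⟩
      refine asy_point hj he π hπ _ ?_ hs
      rw [← hker]
      rfl
    have h2 : (∑ Q : MaximalSpectrum (Cv P), (1 : ℝ)) = (closedPts P : ℝ) := by
      rw [Finset.sum_const, Finset.card_univ, nsmul_eq_mul, mul_one]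
      unfold closedPts
      rw [← Nat.card_congr (maxEquiv P), Nat.card_eq_fintype_card]
    rw [h2] at h1
    refine h1.congr 1 one_ne_zero fun F _ _ _ => ?_
    let _ : Fintype (R →+* F) := Fintype.ofFinite _
    have hfF : Finite (Cv G →+* F) := inferInstance
    rw [sT_eq]
    have e1 := card_pts G s F
    have e2 := hj.points g1 g2 (dvd_refl s) F
    rw [e1] at e2
    have e3 := congrArg (fun n : ℕ => (n : ℝ)) e2
    simp only [Nat.cast_sum] at e3
    have e4 : (∑ Q : MaximalSpectrum (Cv P),
        sH (Ideal.Quotient.mk (Q.asIdeal.comap (jj G P h)) (algebraMap R (Cv G) s)) F) =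
        ∑ Q : MaximalSpectrum (Cv P), (Nat.card {θ : PtR (jj G P h) Q →+* F //
          θ (Ideal.Quotient.mk _ (algebraMap R (Cv G) s)) ≠ 0} : ℝ) := rfl
    rw [e4, ← e3]
    refine Finset.sum_congr rfl fun φ _ => ?_
    unfold wr
    split_ifs
    · push_cast
      rfl
    · rw [Nat.cast_zero]
  exact asy_any (K := K) (isWt_wr fun i => (G i).natDegree) he.le (fun _ => rfl)
    (fun i => ⟨hG i, rfl⟩) hN hs hA

end

end Pool.Agent.T2H55.KV
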